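import Pool.Agent.J4.H93.SF.SF6

set_option autoImplicit false

/-! Bilinear sums `∑ w_a u_n F(a + v_n)` for functions `F` with small Fourier coefficients, arbitrary bounded weights
`w_a`, `u_n`, and families `v_n` with few large frequencies. -/

namespace Pool.Agent.J4.H93.BL
open Finset
open Pool.Agent.H807R2.Dav
open Pool.Agent.W301.SS
open Pool.Agent.J4.H93.SF

/-- the transform of weights -/
noncomputable def TW {ι : Type*} (X : Finset ι) (s : ι → ℤ) (c : ι → ℂ) (x : ℝ) : ℂ := ∑ i ∈ X, c i * ee ((s i : ℝ) * x)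

lemma TW_le {ι : Type*} (X : Finset ι) (s : ι → ℤ) (c : ι → ℂ) (hc : ∀ i ∈ X, ‖c i‖ ≤ 1) (x : ℝ) : ‖TW X s c x‖ ≤ X.card := by
  unfold TW
  refine (norm_sum_le _ _).trans ?_
  rw [← nsmul_one, ← sum_const]
  refine sum_le_sum fun i hi => ?_
  rw [norm_mul, norm_ee, mul_one]
  exact hc i hi

lemma TW_sq {ι : Type*} {M : ℕ} (hM : 1 ≤ M) (X : Finset ι) (s : ι → ℤ) (c : ι → ℂ) :
    ((∑ r ∈ range M, ‖TW X s c ((r : ℝ) / M)‖ ^ 2 : ℝ) : ℂ) =
      ∑ x ∈ X, ∑ y ∈ X, c x * (starRingEnd ℂ) (c y) * (if (M : ℤ) ∣ s x - s y then (M : ℂ) else 0) := by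
  push_cast
  have e1 : ∀ r ∈ range M, ((‖TW X s c ((r : ℝ) / M)‖ : ℂ)) ^ 2 =
      ∑ x ∈ X, ∑ y ∈ X, c x * (starRingEnd ℂ) (c y) * ee (((s x - s y : ℤ) : ℝ) * ((r : ℝ) / M)) := by
    intro r _
    rw [← Complex.mul_conj']
    unfold TW
    rw [map_sum, sum_mul_sum]
    refine sum_congr rfl fun a _ => sum_congr rfl fun b _ => ?_
    rw [map_mul, star_ee]
    have : ee (((s a - s b : ℤ) : ℝ) * ((r : ℝ) / M)) = ee ((s a : ℝ) * ((r : ℝ) / M)) * ee (-((s b : ℝ) * ((r : ℝ) / M))) := by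
      rw [← ee_add]
      congr 1
      push_cast; ring
    rw [this]
    ring
  rw [sum_congr rfl e1, sum_comm]
  refine sum_congr rfl fun a _ => ?_
  rw [sum_comm]
  refine sum_congr rfl fun b _ => ?_
  rw [← mul_sum, orth hM]

lemma TW_mono {ι : Type*} {M : ℕ} (hM : 1 ≤ M) (X : Finset ι) (s : ι → ℤ) (c : ι → ℂ) (hc : ∀ i ∈ X, ‖c i‖ ≤ 1) :
    ∑ r ∈ range M, ‖TW X s c ((r : ℝ) / M)‖ ^ 2 ≤ ∑ x ∈ X, ∑ y ∈ X, (if (M : ℤ) ∣ s x - s y then (M : ℝ) else 0) := by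
  have h0 : 0 ≤ ∑ r ∈ range M, ‖TW X s c ((r : ℝ) / M)‖ ^ 2 := sum_nonneg fun _ _ => by positivity
  have h1 : ∑ r ∈ range M, ‖TW X s c ((r : ℝ) / M)‖ ^ 2 =
      ‖((∑ r ∈ range M, ‖TW X s c ((r : ℝ) / M)‖ ^ 2 : ℝ) : ℂ)‖ := by
    rw [Complex.norm_real, Real.norm_eq_abs, abs_of_nonneg h0]
  rw [h1, TW_sq hM]
  refine (norm_sum_le _ _).trans (sum_le_sum fun x hx => (norm_sum_le _ _).trans (sum_le_sum fun y hy => ?_))
  rw [norm_mul, norm_mul, RCLike.norm_conj]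
  have h2 : ‖c x‖ * ‖c y‖ ≤ 1 := mul_le_one₀ (hc x hx) (norm_nonneg _) (hc y hy)
  split_ifs
  · rw [Complex.norm_natCast]
    calc ‖c x‖ * ‖c y‖ * (M : ℝ) ≤ 1 * M := mul_le_mul_of_nonneg_right h2 (Nat.cast_nonneg _)
      _ = M := one_mul _
  · simp

lemma TW_one {ι : Type*} {M : ℕ} (hM : 1 ≤ M) (X : Finset ι) (s : ι → ℤ) :
    ∑ r ∈ range M, ‖TW X s (fun _ => 1) ((r : ℝ) / M)‖ ^ 2 = ∑ x ∈ X, ∑ y ∈ X, (if (M : ℤ) ∣ s x - s y then (M : ℝ) else 0) := by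
  have h := TW_sq hM X s (fun _ => 1)
  have h2 : ((∑ x ∈ X, ∑ y ∈ X, (if (M : ℤ) ∣ s x - s y then (M : ℝ) else 0) : ℝ) : ℂ) =
      ∑ x ∈ X, ∑ y ∈ X, (1 : ℂ) * (starRingEnd ℂ) (1 : ℂ) * (if (M : ℤ) ∣ s x - s y then (M : ℂ) else 0) := by
    rw [Complex.ofReal_sum]
    refine sum_congr rfl fun x _ => ?_
    rw [Complex.ofReal_sum]
    refine sum_congr rfl fun y _ => ?_
    rw [map_one, mul_one, one_mul]
    split_ifs
    · simp
    · simp
  rw [← h2] at h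
  exact_mod_cast h

/-- Parseval -/
lemma TW_pars {ι : Type*} {M : ℕ} (hM : 1 ≤ M) (X : Finset ι) (s : ι → ℤ) (c : ι → ℂ) (hc : ∀ i ∈ X, ‖c i‖ ≤ 1)
    (hinj : ∀ x ∈ X, ∀ y ∈ X, (M : ℤ) ∣ s x - s y → x = y) :
    ∑ r ∈ range M, ‖TW X s c ((r : ℝ) / M)‖ ^ 2 ≤ M * X.card := by
  refine (TW_mono hM X s c hc).trans ?_
  have h : ∀ x ∈ X, ∑ y ∈ X, (if (M : ℤ) ∣ s x - s y then (M : ℝ) else 0) ≤ M := by
    intro x hx
    rw [sum_eq_single x]
    · simp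
    · intro y hy hyx
      rw [if_neg]
      intro hd
      exact hyx (hinj x hx y hy hd).symm
    · intro h; exact absurd hx h
  refine (sum_le_sum h).trans ?_
  rw [sum_const, nsmul_eq_mul, mul_comm]

/-- the law for arbitrary bounded weights -/
lemma wlaw {M p : ℕ} (hM : 1 ≤ M) {C₁ : ℝ} {S : Finset ℕ} {v : ℕ → ℤ} (h : Law M p C₁ S v) (u : ℕ → ℂ)
    (hu : ∀ n ∈ S, ‖u n‖ ≤ 1) : ∑ t ∈ range M, ‖TW S v u ((t : ℝ) / M)‖ ^ (2 * p) ≤ C₁ * (S.card : ℝ) ^ (2 * p) := by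
  classical
  have key : ∀ (c : ℕ → ℂ) (t : ℕ), ‖TW S v c ((t : ℝ) / M)‖ ^ (2 * p) =
      ‖TW (Fintype.piFinset fun _ : Fin p => S) (fun x => ∑ i, v (x i)) (fun x => ∏ i, c (x i)) ((t : ℝ) / M)‖ ^ 2 := by
    intro c t
    rw [mul_comm, pow_mul, ← norm_pow]
    congr 2
    unfold TW
    have h1 : (∑ i ∈ S, c i * ee ((v i : ℝ) * ((t : ℝ) / M))) ^ p =
        ∏ _j : Fin p, ∑ i ∈ S, c i * ee ((v i : ℝ) * ((t : ℝ) / M)) := by
      rw [prod_const, card_univ, Fintype.card_fin]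
    rw [h1, prod_univ_sum]
    refine sum_congr rfl fun x _ => ?_
    rw [prod_mul_distrib]
    congr 1
    have h2 : ∀ T : Finset (Fin p), ∏ i ∈ T, ee ((v (x i) : ℝ) * ((t : ℝ) / M)) = ee (((∑ i ∈ T, v (x i) : ℤ) : ℝ) * ((t : ℝ) / M)) := by
      intro T
      induction T using Finset.induction_on with
      | empty => simp [ee_zero]
      | insert a s ha ih =>
        rw [prod_insert ha, ih, ← ee_add, sum_insert ha]
        congr 1
        push_cast; ring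
    exact h2 univ
  have e1 : ∑ t ∈ range M, ‖TW S v u ((t : ℝ) / M)‖ ^ (2 * p) ≤ ∑ t ∈ range M, ‖TW S v (fun _ => 1) ((t : ℝ) / M)‖ ^ (2 * p) := by
    rw [sum_congr rfl (fun t _ => key u t), sum_congr rfl (fun t _ => key (fun _ => 1) t)]
    simp only [prod_const_one]
    rw [TW_one hM]
    refine TW_mono hM _ _ _ ?_
    intro x hx
    rw [norm_prod]
    exact prod_le_one (fun _ _ => norm_nonneg _) fun i _ => hu _ (Fintype.mem_piFinset.1 hx i)
  refine e1.trans (le_trans (le_of_eq ?_) h)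
  refine sum_congr rfl fun t _ => ?_
  congr 2
  unfold TW FF
  refine sum_congr rfl fun n _ => ?_
  rw [one_mul]

open Classical in
lemma wfew {M p : ℕ} (hM : 1 ≤ M) {C₁ : ℝ} {S : Finset ℕ} {v : ℕ → ℤ} (h : Law M p C₁ S v) (hS : 0 < S.card) (u : ℕ → ℂ)
    (hu : ∀ n ∈ S, ‖u n‖ ≤ 1) (δ : ℝ) (hδ : 0 < δ) :
    (((range M).filter (fun t : ℕ => δ * S.card < ‖TW S v u ((t : ℝ) / M)‖)).card : ℝ) ≤ C₁ / δ ^ (2 * p) := by
  have hS0 : (0 : ℝ) < S.card := by exact_mod_cast hS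
  rw [le_div_iff₀ (by positivity)]
  have h1 : (((range M).filter (fun t : ℕ => δ * S.card < ‖TW S v u ((t : ℝ) / M)‖)).card : ℝ) * (δ * S.card) ^ (2 * p) ≤
      C₁ * (S.card : ℝ) ^ (2 * p) := by
    refine le_trans ?_ (wlaw hM h u hu)
    rw [← nsmul_eq_mul, ← sum_const]
    calc ∑ t ∈ (range M).filter (fun t : ℕ => δ * S.card < ‖TW S v u ((t : ℝ) / M)‖), (δ * S.card) ^ (2 * p) ≤
        ∑ t ∈ (range M).filter (fun t : ℕ => δ * S.card < ‖TW S v u ((t : ℝ) / M)‖), ‖TW S v u ((t : ℝ) / M)‖ ^ (2 * p) := by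
          apply sum_le_sum
          intro t ht
          exact pow_le_pow_left₀ (by positivity) (mem_filter.1 ht).2.le _
      _ ≤ _ := sum_le_sum_of_subset_of_nonneg (filter_subset _ _) fun _ _ _ => by positivity
  rw [mul_pow, ← mul_assoc] at h1
  exact le_of_mul_le_mul_right h1 (by positivity)

/-- **The bilinear estimate.** -/
theorem bil {M p : ℕ} (hM : 1 ≤ M) {C₁ δ η : ℝ} (hδ : 0 < δ) (hη : 0 ≤ η) (A I : Finset ℤ) (S : Finset ℕ) (v : ℕ → ℤ)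
    (hS : 0 < S.card) (hlaw : Law M p C₁ S v) (w : ℤ → ℂ) (hw : ∀ a ∈ A, ‖w a‖ ≤ 1) (u : ℕ → ℂ) (hu : ∀ n ∈ S, ‖u n‖ ≤ 1)
    (F : ℤ → ℂ) (hF : ∀ z ∈ I, ‖F z‖ ≤ 1) (hwrap : ∀ a ∈ A, ∀ n ∈ S, ∀ z ∈ I, |a + v n - z| < M)
    (hA : ∀ a ∈ A, ∀ a' ∈ A, |a - a'| < M) (hI : ∀ z ∈ I, ∀ z' ∈ I, |z - z'| < M)
    (hFF : ∀ t ∈ range M, ‖TW I (fun z => -z) F ((t : ℝ) / M)‖ ≤ η) :
    ‖∑ a ∈ A, ∑ n ∈ S, w a * (u n * (if a + v n ∈ I then F (a + v n) else 0))‖ ≤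
      C₁ / δ ^ (2 * p) * (η * A.card * S.card) / M + δ * S.card * √ ((A.card : ℝ) * I.card) := by
  classical
  have hM0 : (0 : ℝ) < M := by exact_mod_cast hM
  have hMc : (M : ℂ) ≠ 0 := by exact_mod_cast hM0.ne'
  have hS0 : (0 : ℝ) < S.card := by exact_mod_cast hS
  have e1 : ∀ a ∈ A, ∀ n ∈ S, (M : ℂ) * (if a + v n ∈ I then F (a + v n) else 0) =
      ∑ t ∈ range M, TW I (fun z => -z) F ((t : ℝ) / M) * ee (((a + v n : ℤ) : ℝ) * ((t : ℝ) / M)) := by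
    intro a ha n hn
    unfold TW
    have h1 : ∀ t ∈ range M, (∑ i ∈ I, F i * ee (((-i : ℤ) : ℝ) * ((t : ℝ) / M))) * ee (((a + v n : ℤ) : ℝ) * ((t : ℝ) / M)) =
        ∑ i ∈ I, F i * ee (((a + v n - i : ℤ) : ℝ) * ((t : ℝ) / M)) := by
      intro t _
      rw [sum_mul]
      refine sum_congr rfl fun i _ => ?_
      rw [mul_assoc, ← ee_add]
      congr 2
      push_cast; ring
    rw [sum_congr rfl h1, sum_comm]
    have h2 : ∀ i ∈ I, ∑ t ∈ range M, F i * ee (((a + v n - i : ℤ) : ℝ) * ((t : ℝ) / M)) =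
        if i = a + v n then F i * (M : ℂ) else 0 := by
      intro i hi
      rw [← mul_sum, orth hM]
      by_cases h : i = a + v n
      · rw [if_pos h, if_pos (by rw [h]; simp)]
      · rw [if_neg h, if_neg, mul_zero]
        intro hd
        have h3 := Int.eq_zero_of_abs_lt_dvd hd (hwrap a ha n hn i hi)
        apply h; omega
    rw [sum_congr rfl h2, sum_ite_eq']
    split_ifs
    · ring
    · simp
  obtain ⟨Z, hZ⟩ : ∃ Z, Z = ∑ a ∈ A, ∑ n ∈ S, w a * (u n * (if a + v n ∈ I then F (a + v n) else 0)) := ⟨_, rfl⟩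
  rw [← hZ]
  have e2 : (M : ℂ) * Z = ∑ t ∈ range M, TW I (fun z => -z) F ((t : ℝ) / M) *
      (TW A (fun z => z) w ((t : ℝ) / M) * TW S v u ((t : ℝ) / M)) := by
    rw [hZ, mul_sum]
    have h1 : ∀ a ∈ A, (M : ℂ) * ∑ n ∈ S, w a * (u n * (if a + v n ∈ I then F (a + v n) else 0)) =
        ∑ n ∈ S, ∑ t ∈ range M, TW I (fun z => -z) F ((t : ℝ) / M) *
          ((w a * ee ((a : ℝ) * ((t : ℝ) / M))) * (u n * ee ((v n : ℝ) * ((t : ℝ) / M)))) := by
      intro a ha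
      rw [mul_sum]
      refine sum_congr rfl fun n hn => ?_
      have h2 : (M : ℂ) * (w a * (u n * (if a + v n ∈ I then F (a + v n) else 0))) =
          w a * u n * ((M : ℂ) * (if a + v n ∈ I then F (a + v n) else 0)) := by ring
      rw [h2, e1 a ha n hn, mul_sum]
      refine sum_congr rfl fun t _ => ?_
      have h3 : ee (((a + v n : ℤ) : ℝ) * ((t : ℝ) / M)) = ee ((a : ℝ) * ((t : ℝ) / M)) * ee ((v n : ℝ) * ((t : ℝ) / M)) := by
        rw [← ee_add]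
        congr 1
        push_cast; ring
      rw [h3]
      ring
    rw [sum_congr rfl h1]
    have h4 : ∀ t ∈ range M, TW I (fun z => -z) F ((t : ℝ) / M) *
        (TW A (fun z => z) w ((t : ℝ) / M) * TW S v u ((t : ℝ) / M)) =
        ∑ a ∈ A, ∑ n ∈ S, TW I (fun z => -z) F ((t : ℝ) / M) *
          ((w a * ee ((a : ℝ) * ((t : ℝ) / M))) * (u n * ee ((v n : ℝ) * ((t : ℝ) / M)))) := by
      intro t _
      have h5 : TW A (fun z => z) w ((t : ℝ) / M) * TW S v u ((t : ℝ) / M) =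
          ∑ a ∈ A, ∑ n ∈ S, (w a * ee ((a : ℝ) * ((t : ℝ) / M))) * (u n * ee ((v n : ℝ) * ((t : ℝ) / M))) := by
        unfold TW
        rw [sum_mul_sum]
      rw [h5, mul_sum]
      refine sum_congr rfl fun a _ => ?_
      rw [mul_sum]
    rw [sum_congr rfl h4]
    symm
    rw [sum_comm]
    refine sum_congr rfl fun a _ => ?_
    exact sum_comm
  have hcA := Nat.cast_nonneg (α := ℝ) A.card
  have hcI := Nat.cast_nonneg (α := ℝ) I.card
  obtain ⟨T, hT⟩ : ∃ T, T = (range M).filter (fun t : ℕ => δ * S.card < ‖TW S v u ((t : ℝ) / M)‖) := ⟨_, rfl⟩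
  have hTc : (T.card : ℝ) ≤ C₁ / δ ^ (2 * p) := by rw [hT]; exact wfew hM hlaw hS u hu δ hδ
  -- pointwise
  have e3 : ∀ t ∈ range M, ‖TW I (fun z => -z) F ((t : ℝ) / M) *
      (TW A (fun z => z) w ((t : ℝ) / M) * TW S v u ((t : ℝ) / M))‖ ≤
      (if t ∈ T then η * A.card * S.card else 0) +
        δ * S.card * (‖TW I (fun z => -z) F ((t : ℝ) / M)‖ * ‖TW A (fun z => z) w ((t : ℝ) / M)‖) := by
    intro t ht
    rw [norm_mul, norm_mul]
    have h1 := norm_nonneg (TW I (fun z => -z) F ((t : ℝ) / M))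
    have h2 := norm_nonneg (TW A (fun z => z) w ((t : ℝ) / M))
    have h3 := norm_nonneg (TW S v u ((t : ℝ) / M))
    have h4 : 0 ≤ δ * S.card * (‖TW I (fun z => -z) F ((t : ℝ) / M)‖ * ‖TW A (fun z => z) w ((t : ℝ) / M)‖) := by positivity
    by_cases htT : t ∈ T
    · rw [if_pos htT]
      have h5 : ‖TW I (fun z => -z) F ((t : ℝ) / M)‖ *
          (‖TW A (fun z => z) w ((t : ℝ) / M)‖ * ‖TW S v u ((t : ℝ) / M)‖) ≤ η * (A.card * S.card) :=
        mul_le_mul (hFF t ht) (mul_le_mul (TW_le A _ w hw _) (TW_le S v u hu _) h3 hcA) (by positivity) hη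
      linarith
    · rw [if_neg htT, zero_add]
      have h5 : ‖TW S v u ((t : ℝ) / M)‖ ≤ δ * S.card := by
        by_contra h
        apply htT
        rw [hT, mem_filter]
        exact ⟨ht, not_le.1 h⟩
      calc ‖TW I (fun z => -z) F ((t : ℝ) / M)‖ *
          (‖TW A (fun z => z) w ((t : ℝ) / M)‖ * ‖TW S v u ((t : ℝ) / M)‖) =
          (‖TW I (fun z => -z) F ((t : ℝ) / M)‖ * ‖TW A (fun z => z) w ((t : ℝ) / M)‖) * ‖TW S v u ((t : ℝ) / M)‖ := by ring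
        _ ≤ (‖TW I (fun z => -z) F ((t : ℝ) / M)‖ * ‖TW A (fun z => z) w ((t : ℝ) / M)‖) * (δ * S.card) :=
          mul_le_mul_of_nonneg_left h5 (by positivity)
        _ = _ := by ring
  -- Cauchy-Schwarz
  have e4 : ∑ t ∈ range M, ‖TW I (fun z => -z) F ((t : ℝ) / M)‖ * ‖TW A (fun z => z) w ((t : ℝ) / M)‖ ≤
      M * √ ((A.card : ℝ) * I.card) := by
    have p1 := TW_pars hM I (fun z => -z) F hF (by
      intro x hx y hy hd
      have h3 := Int.eq_zero_of_abs_lt_dvd hd (by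
        have := hI y hy x hx
        rw [show -x - -y = y - x by ring]; exact this)
      omega)
    have p2 := TW_pars hM A (fun z => z) w hw (by
      intro x hx y hy hd
      have h3 := Int.eq_zero_of_abs_lt_dvd hd (hA x hx y hy)
      omega)
    have h0 : 0 ≤ ∑ t ∈ range M, ‖TW I (fun z => -z) F ((t : ℝ) / M)‖ * ‖TW A (fun z => z) w ((t : ℝ) / M)‖ :=
      sum_nonneg fun _ _ => by positivity
    have h1 := sum_mul_sq_le_sq_mul_sq (range M) (fun t : ℕ => ‖TW I (fun z => -z) F ((t : ℝ) / M)‖)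
      (fun t : ℕ => ‖TW A (fun z => z) w ((t : ℝ) / M)‖)
    have h2 : (∑ t ∈ range M, ‖TW I (fun z => -z) F ((t : ℝ) / M)‖ * ‖TW A (fun z => z) w ((t : ℝ) / M)‖) ^ 2 ≤
        (M * √ ((A.card : ℝ) * I.card)) ^ 2 := by
      refine h1.trans ?_
      rw [mul_pow, Real.sq_sqrt (by positivity)]
      calc _ ≤ ((M : ℝ) * I.card) * (M * A.card) := mul_le_mul p1 p2 (sum_nonneg fun _ _ => by positivity) (by positivity)
        _ = _ := by ring
    exact (abs_le_of_sq_le_sq' h2 (by positivity)).2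
  have e5 : M * ‖Z‖ ≤ C₁ / δ ^ (2 * p) * (η * A.card * S.card) + δ * S.card * (M * √ ((A.card : ℝ) * I.card)) := by
    have h1 : (M : ℝ) * ‖Z‖ = ‖(M : ℂ) * Z‖ := by rw [norm_mul, Complex.norm_natCast]
    rw [h1, e2]
    refine (norm_sum_le _ _).trans ((sum_le_sum e3).trans ?_)
    rw [sum_add_distrib, ← mul_sum]
    refine add_le_add ?_ (mul_le_mul_of_nonneg_left e4 (by positivity))
    have h2 : ∑ t ∈ range M, (if t ∈ T then η * A.card * S.card else 0) = T.card * (η * A.card * S.card) := by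
      rw [← sum_filter]
      have h3 : (range M).filter (fun t => t ∈ T) = T := by
        ext t
        rw [mem_filter, hT, mem_filter]
        tauto
      rw [h3, sum_const, nsmul_eq_mul]
    rw [h2]
    exact mul_le_mul_of_nonneg_right hTc (by positivity)
  have e6 : C₁ / δ ^ (2 * p) * (η * A.card * S.card) / M + δ * S.card * √ ((A.card : ℝ) * I.card) =
      (C₁ / δ ^ (2 * p) * (η * A.card * S.card) + δ * S.card * (M * √ ((A.card : ℝ) * I.card))) / M := by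
    field_simp
  rw [e6, le_div_iff₀ hM0, mul_comm]
  exact e5

end Pool.Agent.J4.H93.BL
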