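import Pool.Agent.J4.H93.BL.BL1
import Pool.Agent.TH465.PP.Level

set_option autoImplicit false

/-! The total stopping time at the sums `a + f(n)`, `a` in an arbitrary set, `n` in an arbitrary set of integers with
restricted digits. -/

namespace Pool.Agent.J4.H93.BL
open Finset Filter Topology
open Pool.Agent.TH872.Sq
open Pool.Agent.J4.H93.SF
open Pool.Agent.J4.H93.PD
open Pool.Agent.TH204.CP (ind ind_mem tlog)
open Pool.Agent.TH465.HP Pool.Agent.TH465.PP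
open Pool.Agent.W41.FU (EE)
open Pool.Agent.H499R2.HL (H)
open Pool.Agent.H499R2.LT (odn)
open Pool.Agent.H499R2.ND (Dn Phi)

lemma sum_Icc_int (N : ℕ) (g : ℤ → ℂ) : ∑ z ∈ Icc (1 : ℤ) N, g z = ∑ n ∈ Icc 1 N, g (n : ℕ) := by
  symm
  refine sum_bij (fun n _ => (n : ℤ)) ?_ ?_ ?_ ?_
  · intro n hn
    rw [mem_Icc] at hn ⊢
    omega
  · intro a _ b _ h
    exact_mod_cast h
  · intro z hz
    rw [mem_Icc] at hz
    exact ⟨z.toNat, by rw [mem_Icc]; omega, by omega⟩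
  · intro _ _; rfl

lemma TW_EE (f : ℤ → ℝ) (N : ℕ) (x : ℝ) :
    TW (Icc (1 : ℤ) N) (fun z => -z) (fun z => (f z : ℂ)) x = EE f N (-x) := by
  unfold TW EE
  rw [sum_Icc_int]
  refine sum_congr rfl fun n _ => ?_
  congr 1
  unfold Pool.Agent.H807R2.Dav.ee Pool.Agent.W41.FU.ee
  congr 1
  push_cast
  ring

/-- the pairs with positive sum -/
def PFi (A : Finset ℤ) (B : Finset ℕ) (v : ℕ → ℤ) : Finset (ℤ × ℕ) := (A ×ˢ B).filter (fun z => 0 < z.1 + v z.2)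

open Classical in
lemma pfi_count (Q : ℤ → Prop) (δ : ℝ) (A : Finset ℤ) (B S : Finset ℕ) (hB : B ⊆ S) (v : ℕ → ℤ) (N : ℕ)
    (hN : ∀ a ∈ A, ∀ n ∈ B, a + v n ≤ N) :
    ((((((PFi A B v).filter (fun z => Q (z.1 + v z.2))).card : ℝ) - δ * (PFi A B v).card : ℝ)) : ℂ) =
      ∑ a ∈ A, ∑ n ∈ S, (1 : ℂ) * ((if n ∈ B then (1 : ℂ) else 0) *
        (if a + v n ∈ Icc (1 : ℤ) N then (((fun z => ind Q z - δ) (a + v n) : ℝ) : ℂ) else 0)) := by
  have e1 : (((PFi A B v).filter (fun z => Q (z.1 + v z.2))).card : ℝ) - δ * (PFi A B v).card =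
      ∑ z ∈ PFi A B v, (ind Q (z.1 + v z.2) - δ) := by
    rw [sum_sub_distrib, sum_const, nsmul_eq_mul]
    have e3 : ∑ z ∈ PFi A B v, ind Q (z.1 + v z.2) = (((PFi A B v).filter (fun z => Q (z.1 + v z.2))).card : ℝ) := by
      unfold ind
      rw [Finset.sum_boole]
    rw [e3]; ring
  rw [e1]
  unfold PFi
  rw [sum_filter, sum_product, Complex.ofReal_sum]
  refine sum_congr rfl fun a ha => ?_
  rw [Complex.ofReal_sum]
  have e2 : ∀ n ∈ S, (1 : ℂ) * ((if n ∈ B then (1 : ℂ) else 0) *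
        (if a + v n ∈ Icc (1 : ℤ) N then (((fun z => ind Q z - δ) (a + v n) : ℝ) : ℂ) else 0)) =
      if n ∈ B then (if a + v n ∈ Icc (1 : ℤ) N then (((fun z => ind Q z - δ) (a + v n) : ℝ) : ℂ) else 0) else 0 := by
    intro n _
    split_ifs <;> simp
  rw [sum_congr rfl e2, ← sum_filter]
  have e4 : S.filter (fun n => n ∈ B) = B := by
    ext n
    rw [mem_filter]
    exact ⟨fun h => h.2, fun h => ⟨hB h, h⟩⟩
  rw [e4]
  refine sum_congr rfl fun n hn => ?_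
  have h := hN a ha n hn
  by_cases hp : 0 < a + v n
  · have hm : a + v n ∈ Icc (1 : ℤ) N := by rw [mem_Icc]; omega
    rw [if_pos hp, if_pos hm]
  · have hm : a + v n ∉ Icc (1 : ℤ) N := by rw [mem_Icc]; omega
    rw [if_neg hp, if_neg hm]
    simp

lemma card_ic (N : ℕ) (hN : 1 ≤ N) (A : Finset ℤ) (hA : A ⊆ Icc (-(N : ℤ)) N) : (A.card : ℝ) ≤ 3 * N := by
  have h1 := card_le_card hA
  rw [Int.card_Icc] at h1
  have h2 : A.card ≤ 3 * N := by omega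
  exact_mod_cast h2

open Classical in
/-- **The law for functions with small Fourier coefficients.** -/
theorem dig_law {W : ℕ → ℤ → Prop} {δ : ℝ} (h0 : 0 ≤ δ) (h1 : δ ≤ 1) (hW : Fou W δ) (b : ℕ) (hb : 2 ≤ b) (e : ℕ) (κ : ℤ)
    (hκ : κ ≠ 0) (R : ℕ) (hR : 1 ≤ R) (ε : ℝ) (hε : 0 < ε) : ∃ k₀ : ℕ, ∀ k N : ℕ, k₀ ≤ k → b ^ ((e + 2) * k) ≤ N →
    N ≤ R * b ^ ((e + 2) * k) → ∀ D : ℕ → Finset ℕ, (∀ i < k, D i ⊆ range b ∧ 2 ≤ (D i).card) →
    ∀ (v : ℕ → ℤ) (G : ℝ → ℝ), PF (e + 2) κ G → (∀ n : ℕ, (v n : ℝ) = G n) → (∀ n ∈ SD b D k, |v n| ≤ N) →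
    ∀ A : Finset ℤ, A ⊆ Icc (-(N : ℤ)) N → ∀ B : Finset ℕ, B ⊆ SD b D k →
      |(((PFi A B v).filter (fun z => W (2 * N) (z.1 + v z.2))).card : ℝ) - δ * (PFi A B v).card| ≤
        ε * N * (SD b D k).card := by
  obtain ⟨p, C, hp, hC, hlaw⟩ := law_deg b hb e κ hκ R hR
  obtain ⟨d, hd⟩ : ∃ d, d = ε / 6 := ⟨_, rfl⟩
  have hd0 : 0 < d := by rw [hd]; positivity
  obtain ⟨Q, hQ⟩ : ∃ Q, Q = C / d ^ (2 * p) := ⟨_, rfl⟩
  have hQ0 : 0 < Q := by rw [hQ]; positivity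
  obtain ⟨η, hη⟩ : ∃ η, η = ε / (4 * Q) := ⟨_, rfl⟩
  have hη0 : 0 < η := by rw [hη]; positivity
  obtain ⟨N₀, hN₀⟩ := eventually_atTop.1 (hW η hη0)
  refine ⟨N₀, fun k N hk hN1 hN2 D hD v G hG hv hvN A hA B hB => ?_⟩
  have hNk : k < b ^ ((e + 2) * k) := by
    have h2 : k < 2 ^ k := Nat.lt_two_pow_self
    have h3 : 2 ^ k ≤ b ^ k := Nat.pow_le_pow_left hb k
    have h4 : b ^ k ≤ b ^ ((e + 2) * k) := Nat.pow_le_pow_right (by omega) (Nat.le_mul_of_pos_left k (by omega))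
    omega
  have hNp : 1 ≤ N := by omega
  have hNr : (1 : ℝ) ≤ N := by exact_mod_cast hNp
  have hL := hlaw k N hN1 hN2 D hD v G hG hv
  have hSc := SD_card_pos b hb D k hD
  have hSc' : 0 < (SD b D k).card := by exact_mod_cast hSc
  obtain ⟨M, hM⟩ : ∃ M, M = 4 * N + 1 := ⟨_, rfl⟩
  rw [← hM] at hL
  have hM1 : 1 ≤ M := by omega
  have hMr : (4 * N : ℝ) ≤ M := by rw [hM]; push_cast; linarith
  have hM0 : (0 : ℝ) < M := by exact_mod_cast hM1
  have hAi : ∀ a ∈ A, -(N : ℤ) ≤ a ∧ a ≤ N := fun a ha => mem_Icc.1 (hA ha)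
  have hvi : ∀ n ∈ SD b D k, -(N : ℤ) ≤ v n ∧ v n ≤ N := fun n hn => abs_le.1 (hvN n hn)
  have key := bil hM1 hd0 (by positivity : 0 ≤ η * ((2 * N : ℕ) : ℝ)) A (Icc (1 : ℤ) ((2 * N : ℕ) : ℤ)) (SD b D k) v hSc' hL
    (fun _ => 1) (fun _ _ => by simp) (fun n => if n ∈ B then (1 : ℂ) else 0) (fun n _ => by split_ifs <;> simp)
    (fun z => (((fun z => ind (W (2 * N)) z - δ) z : ℝ) : ℂ)) (by
      intro z _
      have := ind_mem (W (2 * N)) z
      rw [Complex.norm_real, Real.norm_eq_abs, abs_le]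
      constructor <;> linarith) (by
      intro a ha n hn z hz
      have q1 := hAi a ha
      have q2 := hvi n hn
      rw [mem_Icc] at hz
      push_cast at hz
      rw [hM, abs_lt]
      push_cast
      constructor <;> omega) (by
      intro a ha a' ha'
      have q1 := hAi a ha
      have q2 := hAi a' ha'
      rw [hM, abs_lt]
      push_cast
      constructor <;> omega) (by
      intro z hz z' hz'
      rw [mem_Icc] at hz hz'
      push_cast at hz hz'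
      rw [hM, abs_lt]
      push_cast
      constructor <;> omega) (by
      intro t _
      rw [TW_EE]
      exact hN₀ (2 * N) (by omega) _)
  rw [← pfi_count (W (2 * N)) δ A B (SD b D k) hB v (2 * N) (by
    intro a ha n hn
    have q1 := hAi a ha
    have q2 := hvi n (hB hn)
    push_cast
    omega), Complex.norm_real, Real.norm_eq_abs] at key
  refine key.trans ?_
  rw [← hQ]
  have hAc := card_ic N hNp A hA
  have hA0 := Nat.cast_nonneg (α := ℝ) A.card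
  have hIc : ((Icc (1 : ℤ) ((2 * N : ℕ) : ℤ)).card : ℝ) = 2 * N := by
    rw [Int.card_Icc]
    have : ((((2 * N : ℕ) : ℤ) + 1 - 1).toNat) = 2 * N := by omega
    rw [this]; push_cast; ring
  rw [hIc]
  obtain ⟨s, hs⟩ : ∃ s : ℝ, s = ((SD b D k).card : ℝ) := ⟨_, rfl⟩
  rw [← hs] at hSc ⊢
  push_cast
  have t1 : Q * (η * (2 * N) * A.card * s) / M ≤ 3 / 8 * ε * N * s := by
    rw [div_le_iff₀ hM0]
    have e1 : Q * (η * (2 * N) * A.card * s) = ε / 2 * N * s * A.card := by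
      rw [hη]
      field_simp
      ring
    rw [e1]
    calc ε / 2 * N * s * A.card ≤ ε / 2 * N * s * (3 * N) := mul_le_mul_of_nonneg_left hAc (by positivity)
      _ = 3 / 8 * ε * N * s * (4 * N) := by ring
      _ ≤ 3 / 8 * ε * N * s * M := mul_le_mul_of_nonneg_left hMr (by positivity)
  have t2 : d * s * √ ((A.card : ℝ) * (2 * N)) ≤ 1 / 2 * ε * N * s := by
    have h2 : √ ((A.card : ℝ) * (2 * N)) ≤ 3 * N := by
      rw [Real.sqrt_le_left (by positivity)]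
      calc (A.card : ℝ) * (2 * N) ≤ (3 * N) * (2 * N) := mul_le_mul_of_nonneg_right hAc (by positivity)
        _ ≤ (3 * N) ^ 2 := by nlinarith
    calc d * s * √ ((A.card : ℝ) * (2 * N)) ≤ d * s * (3 * N) := mul_le_mul_of_nonneg_left h2 (by positivity)
      _ = 1 / 2 * ε * N * s := by rw [hd]; ring
  have h5 : 0 ≤ ε * N * s := by positivity
  linarith

open Classical in
/-- **Truncated averages.** -/
theorem dig_avg {val : ℕ → ℕ → ℝ} (hval : ∀ k o, 0 ≤ val k o) {A₀ c' δ : ℝ} (hA₀ : 0 < A₀) (hc' : 0 < c')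
    (hδ0 : 0 ≤ δ) (hδ1 : δ ≤ 1) (hfin : Dn (fun n => ∃ k, H k n) δ) (hlaw : LawG val A₀ c' δ)
    (hF : ∀ y, Fou (fun _ => LG val A₀ c' y) (δ * Phi y)) {f : ℝ → ℕ → ℝ} (hf : IsTrG val f)
    {Λ : ℝ} (hΛ : A₀ < Λ) (b : ℕ) (hb : 2 ≤ b) (e : ℕ) (κ : ℤ)
    (hκ : κ ≠ 0) (R : ℕ) (hR : 1 ≤ R) (ε : ℝ) (hε : 0 < ε) : ∃ k₀ : ℕ, ∀ k N : ℕ, k₀ ≤ k → b ^ ((e + 2) * k) ≤ N →
    N ≤ R * b ^ ((e + 2) * k) → ∀ D : ℕ → Finset ℕ, (∀ i < k, D i ⊆ range b ∧ 2 ≤ (D i).card) →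
    ∀ (v : ℕ → ℤ) (G : ℝ → ℝ), PF (e + 2) κ G → (∀ n : ℕ, (v n : ℝ) = G n) → (∀ n ∈ SD b D k, |v n| ≤ N) →
    ∀ A : Finset ℤ, A ⊆ Icc (-(N : ℤ)) N → ∀ B : Finset ℕ, B ⊆ SD b D k →
      |∑ z ∈ PFi A B v, f (Λ * Real.log N) (z.1 + v z.2).toNat -
        (δ * A₀ + (1 - δ) * Λ) * (PFi A B v).card * Real.log N| ≤ ε * N * (SD b D k).card * Real.log N := by
  obtain ⟨τ, hτ0, hτc, hτ⟩ := avg_bound2 hA₀ hΛ hδ0 hδ1 (show 0 < ε / 3 by positivity)
  have f0 := fou_fin hA₀.le hc' hδ0 hfin hlaw hF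
  have f1 := fou_low hA₀.le hc' hδ0 hfin hlaw hF (show A₀ - τ < A₀ by linarith)
  have f2 := fou_upp hA₀.le hc' hδ0 hfin hlaw hF (show A₀ < A₀ + τ by linarith)
  have hτ3 : 0 < τ * 3 := by positivity
  obtain ⟨k1, g0⟩ := dig_law hδ0 hδ1 f0 b hb e κ hκ R hR _ hτ3
  obtain ⟨k2, g1⟩ := dig_law hδ0 hδ1 f1 b hb e κ hκ R hR _ hτ3
  obtain ⟨k3, g2⟩ := dig_law hδ0 hδ1 f2 b hb e κ hκ R hR _ hτ3
  obtain ⟨N₀, hN₀⟩ := eventually_atTop.1 ((tlog.eventually_ge_atTop (Real.log 2 / τ)).and (tlog.eventually_ge_atTop 1))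
  refine ⟨k1 + k2 + k3 + N₀, fun k N hk hN1 hN2 D hD v G hG hv hvN A hA B hB => ?_⟩
  have hNk : k < b ^ ((e + 2) * k) := by
    have h2 : k < 2 ^ k := Nat.lt_two_pow_self
    have h3 : 2 ^ k ≤ b ^ k := Nat.pow_le_pow_left hb k
    have h4 : b ^ k ≤ b ^ ((e + 2) * k) := Nat.pow_le_pow_right (by omega) (Nat.le_mul_of_pos_left k (by omega))
    omega
  have hNp : 1 ≤ N := by omega
  have hNr : (1 : ℝ) ≤ N := by exact_mod_cast hNp
  obtain ⟨h3, h4⟩ := hN₀ N (by omega)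
  have e0 := g0 k N (by omega) hN1 hN2 D hD v G hG hv hvN A hA B hB
  have e1 := g1 k N (by omega) hN1 hN2 D hD v G hG hv hvN A hA B hB
  have e2 := g2 k N (by omega) hN1 hN2 D hD v G hG hv hvN A hA B hB
  have hS0 := Nat.cast_nonneg (α := ℝ) (SD b D k).card
  obtain ⟨s, hs⟩ : ∃ s : ℝ, s = ((SD b D k).card : ℝ) := ⟨_, rfl⟩
  rw [← hs] at e0 e1 e2 hS0 ⊢
  have elog : Real.log ((2 * N : ℕ) : ℝ) = Real.log 2 + Real.log N := by
    push_cast
    rw [Real.log_mul (by norm_num) (by linarith)]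
  have hlw : 0 ≤ Real.log (2 : ℝ) := Real.log_nonneg (by norm_num)
  rw [div_le_iff₀ hτ0] at h3
  set L := Real.log (N : ℝ) with hL
  have hL0 : 0 ≤ L := by linarith
  set L' := Real.log ((2 * N : ℕ) : ℝ) with hL'
  have hLL : L ≤ L' := by rw [elog]; linarith
  have hLL' : L' ≤ (1 + τ) * L := by rw [elog]; linarith
  set P := PFi A B v with hP
  have hPM : (P.card : ℝ) * 1 ≤ 3 * N * s := by
    have h7 : (P.card : ℝ) ≤ A.card * B.card := by
      have : P.card ≤ A.card * B.card := by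
        rw [← card_product]
        exact card_le_card (filter_subset _ _)
      exact_mod_cast this
    have h8 : (B.card : ℝ) ≤ s := by rw [hs]; exact_mod_cast card_le_card hB
    rw [mul_one]
    exact h7.trans (mul_le_mul (card_ic N hNp A hA) h8 (Nat.cast_nonneg _) (by positivity))
  have ht : 0 ≤ Λ * L := by
    have : 0 < Λ := hA₀.trans hΛ
    positivity
  have hAκ : 0 < A₀ - τ := by linarith
  have hb := trunc_bounds P P ∅ (Subset.refl _) (fun z hz _ => hz)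
    (fun z => f (Λ * L) (z.1 + v z.2).toNat)
    (fun z => Dat (fun _ _ => True) (z.1 + v z.2))
    (fun z => Dat (fun k o => (A₀ - τ) * L' < val k o) (z.1 + v z.2))
    (fun z => Dat (fun k o => val k o ≤ (A₀ + τ) * L') (z.1 + v z.2)) ht
    (a1 := (A₀ - τ) * L) (a2 := (A₀ + τ) * ((1 + τ) * L)) (by positivity) (by positivity)
    (fun z _ => (hf.nn hval ht _).1) (fun z _ => (hf.nn hval ht _).2) ?_ ?_ ?_ ?_
  · obtain ⟨b1, b2⟩ := hb
    simp only [card_empty, Nat.cast_zero, zero_mul, add_zero, sub_zero] at b1 b2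
    have key := hτ L 1 (P.card : ℝ) (3 * N * s) _ _ _ _ hL0 zero_le_one (Nat.cast_nonneg _) hPM
      (by refine le_trans (le_of_eq ?_) (e0.trans (le_of_eq ?_))
          · rw [mul_one, mul_one]
          · ring)
      (by refine le_trans (le_of_eq ?_) (e1.trans (le_of_eq ?_))
          · rw [mul_one, mul_one]
          · ring)
      (by refine le_trans (le_of_eq ?_) (e2.trans (le_of_eq ?_))
          · rw [mul_one, mul_one]
          · ring) b1 b2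
    refine le_trans (le_of_eq ?_) (key.trans (le_of_eq ?_))
    · rw [mul_one, mul_one]
    · ring
  · intro z hz _ hn
    apply hf.2
    rintro ⟨k, hk⟩
    have hpos := (mem_filter.1 hz).2
    exact hn ⟨hpos, k, hk, trivial⟩
  · rintro z ⟨hz, k, hk, _⟩
    exact ⟨hz, k, hk, trivial⟩
  · rintro z hz _ ⟨_, k, hk, ho⟩
    rw [hf.1 _ _ k hk]
    refine le_min ?_ ?_
    · have := mul_le_mul_of_nonneg_left hLL hAκ.le
      linarith
    · exact mul_le_mul_of_nonneg_right (by linarith) hL0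
  · rintro z hz _ ⟨_, k, hk, ho⟩
    rw [hf.1 _ _ k hk]
    refine (min_le_left _ _).trans (ho.trans ?_)
    exact mul_le_mul_of_nonneg_left hLL' (by linarith)

end Pool.Agent.J4.H93.BL
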