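import Pool.Agent.J4.H93.BL.BL1

set_option autoImplicit false

/-! The bilinear estimate for the values of polynomials at integers with restricted digits. -/

namespace Pool.Agent.J4.H93.BL
open Finset
open Pool.Agent.H807R2.Dav
open Pool.Agent.TH872.Sq
open Pool.Agent.J4.H93.SF
open Pool.Agent.J4.H93.PD

/-- **Bilinear sums over `a + f(n)`.** -/
theorem dig_bil (b : ℕ) (hb : 2 ≤ b) (e : ℕ) (κ : ℤ) (hκ : κ ≠ 0) (R : ℕ) (hR : 1 ≤ R) (ε : ℝ) (hε : 0 < ε) :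
    ∃ Q : ℝ, 0 < Q ∧ ∀ k N : ℕ, b ^ ((e + 2) * k) ≤ N → N ≤ R * b ^ ((e + 2) * k) →
    ∀ D : ℕ → Finset ℕ, (∀ i < k, D i ⊆ range b ∧ 2 ≤ (D i).card) →
    ∀ (v : ℕ → ℤ) (G : ℝ → ℝ), PF (e + 2) κ G → (∀ n : ℕ, (v n : ℝ) = G n) → (∀ n ∈ SD b D k, |v n| ≤ N) →
    ∀ A : Finset ℤ, A ⊆ Icc (-(N : ℤ)) N → ∀ w : ℤ → ℂ, (∀ a ∈ A, ‖w a‖ ≤ 1) → ∀ u : ℕ → ℂ, (∀ n ∈ SD b D k, ‖u n‖ ≤ 1) →
    ∀ F : ℤ → ℂ, (∀ z ∈ Icc (1 : ℤ) N, ‖F z‖ ≤ 1) → ∀ η : ℝ, 0 ≤ η →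
    (∀ α : ℝ, ‖∑ z ∈ Icc (1 : ℤ) N, F z * ee ((z : ℝ) * α)‖ ≤ η) →
      ‖∑ a ∈ A, ∑ n ∈ SD b D k, w a * (u n * (if a + v n ∈ Icc (1 : ℤ) N then F (a + v n) else 0))‖ ≤
        Q * η * (SD b D k).card + ε * N * (SD b D k).card := by
  obtain ⟨p, C, hp, hC, hlaw⟩ := law_deg b hb e κ hκ R hR
  obtain ⟨d, hd⟩ : ∃ d, d = ε / 2 := ⟨_, rfl⟩
  have hd0 : 0 < d := by rw [hd]; positivity
  obtain ⟨Q, hQ⟩ : ∃ Q, Q = C / d ^ (2 * p) := ⟨_, rfl⟩
  have hQ0 : 0 < Q := by rw [hQ]; positivity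
  refine ⟨Q, hQ0, fun k N hN1 hN2 D hD v G hG hv hvN A hA w hw u hu F hF η hη hFF => ?_⟩
  have hNp : 1 ≤ N := (Nat.one_le_pow _ _ (by omega)).trans hN1
  have hNr : (1 : ℝ) ≤ N := by exact_mod_cast hNp
  have hL := hlaw k N hN1 hN2 D hD v G hG hv
  have hSc := SD_card_pos b hb D k hD
  have hSc' : 0 < (SD b D k).card := by exact_mod_cast hSc
  obtain ⟨M, hM⟩ : ∃ M, M = 4 * N + 1 := ⟨_, rfl⟩
  rw [← hM] at hL
  have hM1 : 1 ≤ M := by omega
  have hMr : (4 * N : ℝ) ≤ M := by rw [hM]; push_cast; linarith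
  have hM0 : (0 : ℝ) < M := by exact_mod_cast hM1
  have hAi : ∀ a ∈ A, -(N : ℤ) ≤ a ∧ a ≤ N := fun a ha => mem_Icc.1 (hA ha)
  have hvi : ∀ n ∈ SD b D k, -(N : ℤ) ≤ v n ∧ v n ≤ N := fun n hn => abs_le.1 (hvN n hn)
  have key := bil hM1 hd0 hη A (Icc (1 : ℤ) N) (SD b D k) v hSc' hL w hw u hu F hF (by
      intro a ha n hn z hz
      have q1 := hAi a ha
      have q2 := hvi n hn
      rw [mem_Icc] at hz
      rw [hM, abs_lt]
      push_cast
      constructor <;> omega) (by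
      intro a ha a' ha'
      have q1 := hAi a ha
      have q2 := hAi a' ha'
      rw [hM, abs_lt]
      push_cast
      constructor <;> omega) (by
      intro z hz z' hz'
      rw [mem_Icc] at hz hz'
      rw [hM, abs_lt]
      push_cast
      constructor <;> omega) (by
      intro t _
      refine le_trans (le_of_eq ?_) (hFF (-((t : ℝ) / M)))
      unfold TW
      congr 1
      refine sum_congr rfl fun z _ => ?_
      congr 2
      push_cast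
      ring)
  refine key.trans ?_
  rw [← hQ]
  have hAc : (A.card : ℝ) ≤ 3 * N := by
    have h1 := card_le_card hA
    rw [Int.card_Icc] at h1
    have h2 : A.card ≤ 3 * N := by omega
    exact_mod_cast h2
  have hA0 := Nat.cast_nonneg (α := ℝ) A.card
  have hIc : ((Icc (1 : ℤ) N).card : ℝ) = N := by
    rw [Int.card_Icc]
    have : (((N : ℤ) + 1 - 1).toNat) = N := by omega
    rw [this]
  rw [hIc]
  obtain ⟨s, hs⟩ : ∃ s : ℝ, s = ((SD b D k).card : ℝ) := ⟨_, rfl⟩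
  rw [← hs] at hSc ⊢
  have t1 : Q * (η * A.card * s) / M ≤ Q * η * s := by
    rw [div_le_iff₀ hM0]
    calc Q * (η * A.card * s) = Q * η * s * A.card := by ring
      _ ≤ Q * η * s * M := mul_le_mul_of_nonneg_left (by linarith) (by positivity)
  have t2 : d * s * √ ((A.card : ℝ) * N) ≤ ε * N * s := by
    have h2 : √ ((A.card : ℝ) * N) ≤ 2 * N := by
      rw [Real.sqrt_le_left (by positivity)]
      calc (A.card : ℝ) * N ≤ (3 * N) * N := mul_le_mul_of_nonneg_right hAc (by positivity)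
        _ ≤ (2 * N) ^ 2 := by nlinarith
    calc d * s * √ ((A.card : ℝ) * N) ≤ d * s * (2 * N) := mul_le_mul_of_nonneg_left h2 (by positivity)
      _ = ε * N * s := by rw [hd]; ring
  linarith

end Pool.Agent.J4.H93.BL
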